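import Pool.Agent.Lib.MP_3eff7f_gt.Main

set_option autoImplicit false

open Bundle Manifold
open scoped ContDiff

namespace Pool.Agent.Results.MP_3eff7f_gt.CircleFixedPointDiam

/-- A closed Riemannian manifold of dimension `n` with a nontrivial isometric circle action that
has a fixed point carries a periodic geodesic of length at most `4 (n + 1) diam M`. -/
theorem result (E : Type) [NormedAddCommGroup E] [NormedSpace ℝ E] [FiniteDimensional ℝ E]
    (M : Type) [MetricSpace M] [CompactSpace M] [ChartedSpace E M] [IsManifold 𝓘(ℝ, E) ∞ M]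
    [RiemannianBundle (fun x : M => TangentSpace 𝓘(ℝ, E) x)]
    [IsContMDiffRiemannianBundle 𝓘(ℝ, E) ∞ E (fun x : M => TangentSpace 𝓘(ℝ, E) x)]
    [IsRiemannianManifold 𝓘(ℝ, E) M]
    (ρ : Circle →* (M ≃ᵢ M)) (hcont : Continuous fun p : Circle × M => ρ p.1 p.2)
    (hne : ∃ g, ρ g ≠ 1) (hfix : ∃ z : M, ∀ g, ρ g z = z) :
    ∃ (γ : ℝ → M) (T : ℝ), 0 < T ∧
      T ≤ 4 * (Module.finrank ℝ E + 1) * Metric.diam (Set.univ : Set M) ∧
      Function.Periodic γ T ∧
      ∀ t : ℝ, ∃ ε > 0, ∀ a b : ℝ, |a - t| < ε → |b - t| < ε → dist (γ a) (γ b) = |a - b| := by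
  obtain ⟨z, hz⟩ := hfix
  exact Pool.Agent.Lib.MP_3eff7f_gt.main (E := E) ρ hcont hne hz
    (fun x => Metric.dist_le_diam_of_mem isCompact_univ.isBounded trivial trivial)

end Pool.Agent.Results.MP_3eff7f_gt.CircleFixedPointDiam
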