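import Pool.Agent.Lib.RG.FIN
import Pool.Agent.Lib.RG.GLUE
import Pool.Agent.Lib.RG.SHORT

set_option autoImplicit false

open Bundle Manifold MeasureTheory
open scoped ContDiff

namespace Pool.Agent.Results.MP_3eff7f_gt.RicciLowerBound

open Pool.Agent.Lib.RG

/-- Closed Riemannian `n`-manifolds with `Ric ≥ -(n - 1) κ`, `vol ≥ v` and `diam ≤ D` carry a
periodic geodesic of length at most `c exp (c √κ D) D (1 + log⁺ (Dⁿ / v))`, `c = c(n)`. -/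
theorem result (n : ℕ) (hn : 1 ≤ n) :
    ∃ c : ℝ, ∀ (M : Type) [MetricSpace M] [CompactSpace M] [ChartedSpace (Fin n → ℝ) M]
      [IsManifold 𝓘(ℝ, Fin n → ℝ) ∞ M]
      [RiemannianBundle (fun x : M => TangentSpace 𝓘(ℝ, Fin n → ℝ) x)]
      [IsContMDiffRiemannianBundle 𝓘(ℝ, Fin n → ℝ) ∞ (Fin n → ℝ)
        (fun x : M => TangentSpace 𝓘(ℝ, Fin n → ℝ) x)]
      [IsRiemannianManifold 𝓘(ℝ, Fin n → ℝ) M] [MeasurableSpace M] [BorelSpace M]
      (μ : Measure M) (κ v D : ℝ), IsVolume n M μ → 0 ≤ κ →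
      RicciGe n M (-(((n : ℝ) - 1) * κ)) → 0 < v → ENNReal.ofReal v ≤ μ Set.univ →
      (∀ a b : M, dist a b ≤ D) →
      ∃ (γ : ℝ → M) (T : ℝ), 0 < T ∧
        T ≤ c * Real.exp (c * √κ * D) * D * (1 + max 0 (Real.log (D ^ n / v))) ∧
        Function.Periodic γ T ∧
        ∀ t : ℝ, ∃ ε > 0, ∀ a b : ℝ, |a - t| < ε → |b - t| < ε → dist (γ a) (γ b) = |a - b| :=
  main2 stWIN stMIN stLIFT stSHORT stNUL stGLUE stRAW1 (stRAW2 stRAW1) stCUT stEXP finLOC stLM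
    finBISH stAREA stBALL n hn

end Pool.Agent.Results.MP_3eff7f_gt.RicciLowerBound
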