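import Pool.Agent.Lib.V10.Final

set_option autoImplicit false

namespace Pool.Agent.Results.MP_3eff7f_gt.SimplyConnectedVolume

open scoped ContDiff Manifold
open Pool.Agent.Lib.MP_3eff7f_gt_h14 MeasureTheory

/-- Negative answer to Q1 among simply connected manifolds. There is a closed simply connected
smooth 10-manifold `M` which, for every `C > 0`, carries a smooth Riemannian metric all of whose
periodic geodesics are longer than `C * vol(M) ^ (1 / 10)`. -/
theorem result :
    ∃ (M : Type) (_ : TopologicalSpace M) (_ : ChartedSpace (Fin 10 → ℝ) M)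
      (_ : IsManifold 𝓘(ℝ, Fin 10 → ℝ) ∞ M) (_ : MeasurableSpace M) (_ : BorelSpace M),
      T2Space M ∧ CompactSpace M ∧ SimplyConnectedSpace M ∧
      ∀ C : ℝ, 0 < C → ∃ (g : RMetric (Fin 10 → ℝ) M) (μ : Measure M), IsVolume g μ ∧
        ∀ (γ : ℝ → M) (T : ℝ), IsGeodesic g γ → (∃ s t, γ s ≠ γ t) → 0 < T →
          (∀ t, γ (t + T) = γ t) →
          ENNReal.ofReal C * μ Set.univ ^ (1 / 10 : ℝ) < length g γ 0 T :=
  Pool.Agent.Lib.V10.final

end Pool.Agent.Results.MP_3eff7f_gt.SimplyConnectedVolume
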