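import Pool.Agent.Lib.MP_3eff7f_gt_h14.Final

set_option autoImplicit false

namespace Pool.Agent.Results.MP_3eff7f_gt.VolumeCounterexample

open scoped ContDiff Manifold
open Pool.Agent.Lib.MP_3eff7f_gt_h14 MeasureTheory

/-- Negative answer to Q1. There is a closed connected smooth 4-manifold `M` which, for every
`C > 0`, carries a smooth Riemannian metric all of whose periodic geodesics are longer than
`C * vol(M) ^ (1 / 4)`. -/
theorem result :
    ∃ (M : Type) (_ : TopologicalSpace M) (_ : ChartedSpace (Fin 4 → ℝ) M)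
      (_ : IsManifold 𝓘(ℝ, Fin 4 → ℝ) ∞ M) (_ : MeasurableSpace M) (_ : BorelSpace M),
      T2Space M ∧ CompactSpace M ∧ ConnectedSpace M ∧
      ∀ C : ℝ, 0 < C → ∃ (g : RMetric (Fin 4 → ℝ) M) (μ : Measure M), IsVolume g μ ∧
        ∀ (γ : ℝ → M) (T : ℝ), IsGeodesic g γ → (∃ s t, γ s ≠ γ t) → 0 < T →
          (∀ t, γ (t + T) = γ t) →
          ENNReal.ofReal C * μ Set.univ ^ (1 / 4 : ℝ) < length g γ 0 T := by
  let _ : MeasurableSpace MM := borel _
  have : BorelSpace MM := ⟨rfl⟩
  exact ⟨MM, inferInstance, inferInstance, inferInstance, inferInstance, inferInstance,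
    inferInstance, inferInstance, inferInstance, fun C hC => main hC⟩

end Pool.Agent.Results.MP_3eff7f_gt.VolumeCounterexample
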